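import Pool.Agent.R679.Psi1

/-!
# Two groups of order `3 ^ 17` with the same sum of element orders

Let `R = ℤ[ζ]`, `ζ` a primitive cube root of unity, `π = ζ - 1`, and let `P` be the semidirect
product of `R / 27` and the group of order 3 generated by the multiplication by `ζ`. The group `H`
is the subgroup of all `(x, y, z) ∈ P ^ 3`, `x = (b₀, e₀)`, `y = (b₁, e₁)`, `z = (b₂, e₂)`, with
`b₁, b₂ ∈ π R / 27` such that the residues of `b₀`, `b₁ / π`, `b₂ / π` modulo `π` are (up to sign)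
equal to one `β`, and `e₁ = e₀ - β`, `e₂ = e₀ - 2 β`. An element of `P` with `e ≠ 0` has order 3.
If `β ≠ 0` then one of `e₀, e₁, e₂` is zero and the element has order 27. If `β = 0` and `e₀ ≠ 0`
then the element has order 3. The elements with `β = 0` and `e₀ = 0` form an abelian group `A` of
order `3 ^ 13` with `3 ^ 6` solutions of `x ^ 3 = 1` and `3 ^ 12` solutions of `x ^ 9 = 1`. So `H`
has order `3 ^ 15`, with `3 ^ 6 + 2 * 3 ^ 13` solutions of `x ^ 3 = 1` and `3 ^ 12 + 2 * 3 ^ 13`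
solutions of `x ^ 9 = 1`. Hence `H × C₃ × C₃` has the same sum of element orders as the abelian
group `C₂₇ × C₉ ^ 7`, which has `3 ^ 8` solutions of `x ^ 3 = 1`, and `3 ^ 16` of `x ^ 9 = 1`.
-/

set_option autoImplicit false

namespace Pool.Agent.Results.MP_c3eb23_al.Order3pow17

open Finset Pool.Agent.R679.Psi

/-- `G` is an LCM group: the order of `x ^ n * y` divides the least common multiple of the orders of
`x ^ n` and `y`. -/
def IsLCM (G : Type) [Group G] : Prop :=
  ∀ (x y : G) (n : ℕ), orderOf (x ^ n * y) ∣ Nat.lcm (orderOf (x ^ n)) (orderOf y)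

/-- The sum of the element orders. -/
noncomputable def psi (G : Type) [Group G] [Fintype G] : ℕ := ∑ x : G, orderOf x

/-- Equality of the order sequences: for every `d` the two groups have the same number of elements
of order `d`. -/
def SameOrderSeq (G H : Type) [Group G] [Group H] : Prop :=
  ∀ d : ℕ, Nat.card {x : G // orderOf x = d} = Nat.card {x : H // orderOf x = d}

theorem count (X : ZMod 3 → ZMod 3 → Finset (B × B × B))
    (hX : ∀ E β, X E β ⊆ S0 β ×ˢ (S1 β ×ˢ S1 β)) (Q : H → Prop)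
    (hQ : ∀ h : H, Q h ↔ (h.1.1.b, h.1.2.1.b, h.1.2.2.b) ∈ X h.1.1.e (sm h.1.1.b)) :
    Nat.card {h : H // Q h} = ∑ a : ZMod 3 × ZMod 3, (X a.1 a.2).card := by
  classical
  rw [← Finset.card_sigma, ← Fintype.card_coe, ← Nat.card_eq_fintype_card]
  refine Nat.card_eq_of_bijective (fun h : {h : H // Q h} =>
    (⟨⟨(h.1.1.1.e, sm h.1.1.1.b), (h.1.1.1.b, h.1.1.2.1.b, h.1.1.2.2.b)⟩, ?_⟩ :
      {a // a ∈ (univ : Finset (ZMod 3 × ZMod 3)).sigma (fun a => X a.1 a.2)})) ⟨?_, ?_⟩
  · rw [Finset.mem_sigma]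
    exact ⟨Finset.mem_univ _, (hQ h.1).1 h.2⟩
  · rintro ⟨⟨⟨x, y, z⟩, hm⟩, hq⟩ ⟨⟨⟨x', y', z'⟩, hm'⟩, hq'⟩ heq
    have h1 := congrArg (fun a => a.1.1) heq
    have h2 := congrArg (fun a => a.1.2) heq
    simp only [Prod.mk.injEq] at h1 h2
    obtain ⟨c1, c2⟩ := h1
    obtain ⟨d1, d2, d3⟩ := h2
    have e1 : y.e = x.e - sm x.b := hm.2.2.2.2.1
    have e2 : z.e = x.e - 2 * sm x.b := hm.2.2.2.2.2
    have e1' : y'.e = x'.e - sm x'.b := hm'.2.2.2.2.1
    have e2' : z'.e = x'.e - 2 * sm x'.b := hm'.2.2.2.2.2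
    have f1 : x = x' := P.ext d1 c1
    have f2 : y = y' := P.ext d2 (by rw [e1, e1', c1, c2])
    have f3 : z = z' := P.ext d3 (by rw [e2, e2', c1, c2])
    subst f1 f2 f3
    rfl
  · rintro ⟨⟨⟨E, β⟩, ⟨b, c, d⟩⟩, ha⟩
    rw [Finset.mem_sigma] at ha
    have h1 := hX E β ha.2
    rw [Finset.mem_product, Finset.mem_product] at h1
    obtain ⟨hb, hc, hd⟩ := h1
    unfold S0 at hb
    unfold S1 at hc hd
    rw [Finset.mem_filter] at hb hc hd
    obtain ⟨_, hb⟩ := hb
    obtain ⟨_, hc1, hc2⟩ := hc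
    obtain ⟨_, hd1, hd2⟩ := hd
    simp only at hb hc1 hc2 hd1 hd2
    have hmem : Mem (⟨b, E⟩, ⟨c, E - β⟩, ⟨d, E - 2 * β⟩) := by
      refine ⟨hc1, hd1, ?_, ?_, ?_, ?_⟩
      · change ρ c.1 = sm b
        rw [hc2, hb]
      · change ρ d.1 = sm b
        rw [hd2, hb]
      · change E - β = E - sm b
        rw [hb]
      · change E - 2 * β = E - 2 * sm b
        rw [hb]
    refine ⟨⟨⟨(⟨b, E⟩, ⟨c, E - β⟩, ⟨d, E - 2 * β⟩), hmem⟩, ?_⟩, ?_⟩
    · rw [hQ]
      change (b, c, d) ∈ X E (sm b)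
      rw [hb]
      exact ha.2
    · apply Subtype.ext
      change (⟨(E, sm b), (b, c, d)⟩ : Σ _ : ZMod 3 × ZMod 3, B × B × B) = _
      rw [hb]

theorem mem_all (h : H) : (h.1.1.b, h.1.2.1.b, h.1.2.2.b) ∈
    S0 (sm h.1.1.b) ×ˢ (S1 (sm h.1.1.b) ×ˢ S1 (sm h.1.1.b)) := by
  obtain ⟨⟨x, y, z⟩, hm⟩ := h
  rw [Finset.mem_product, Finset.mem_product]
  unfold S0 S1
  rw [Finset.mem_filter, Finset.mem_filter, Finset.mem_filter]
  exact ⟨⟨mem_univ _, rfl⟩, ⟨mem_univ _, hm.1, hm.2.2.1⟩, ⟨mem_univ _, hm.2.1, hm.2.2.2.1⟩⟩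

theorem card_H : Nat.card H = 3 ^ 15 := by
  have h := count (fun _ β => S0 β ×ˢ (S1 β ×ˢ S1 β)) (fun _ _ => subset_rfl) (fun _ => True)
    (fun h => ⟨fun _ => mem_all h, fun _ => trivial⟩)
  have h1 : Nat.card {_h : H // True} = Nat.card H :=
    Nat.card_congr (Equiv.subtypeUnivEquiv fun _ => trivial)
  rw [← h1, h]
  simp only [Finset.card_product, card_S0, card_S1, Finset.sum_const, Finset.card_univ,
    Fintype.card_prod, ZMod.card]
  norm_num

/-- the sets which describe the solutions of `x ^ m = 1` -/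
def XX (m : ℕ) (E β : ZMod 3) : Finset (B × B × B) :=
  if β ≠ 0 then ∅ else if E ≠ 0 then S0 0 ×ˢ (S1 0 ×ˢ S1 0) else
    (S0 0).filter (fun b => m • b = 0) ×ˢ ((S1 0).filter (fun b => m • b = 0) ×ˢ
      (S1 0).filter (fun b => m • b = 0))

theorem count_pow (m : ℕ) (hm3 : 3 ∣ m) (hm9 : m ∣ 9) :
    Nat.card {h : H // h ^ m = 1} = ∑ a : ZMod 3 × ZMod 3, (XX m a.1 a.2).card := by
  apply count
  · intro E β
    unfold XX
    split_ifs with h1 h2
    · exact Finset.empty_subset _
    · push Not at h1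
      subst h1
      exact Finset.Subset.refl _
    · push Not at h1
      subst h1
      intro a ha
      rw [Finset.mem_product, Finset.mem_product, Finset.mem_filter, Finset.mem_filter,
        Finset.mem_filter] at ha
      rw [Finset.mem_product, Finset.mem_product]
      exact ⟨ha.1.1, ha.2.1.1, ha.2.2.1⟩
  · intro h
    have hall := mem_all h
    obtain ⟨⟨x, y, z⟩, hm⟩ := h
    change (x.b, y.b, z.b) ∈ _ at hall
    change _ ↔ (x.b, y.b, z.b) ∈ XX m x.e (sm x.b)
    have hpow : (⟨(x, y, z), hm⟩ : H) ^ m = 1 ↔ x ^ m = 1 ∧ y ^ m = 1 ∧ z ^ m = 1 := by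
      constructor
      · intro h
        have h1 : ((x, y, z) : P × P × P) ^ m = 1 := congrArg Subtype.val h
        exact ⟨congrArg Prod.fst h1, congrArg (fun q => q.2.1) h1, congrArg (fun q => q.2.2) h1⟩
      · rintro ⟨h1, h2, h3⟩
        apply Subtype.ext
        change ((x, y, z) : P × P × P) ^ m = 1
        rw [Prod.pow_mk, Prod.pow_mk, h1, h2, h3]
        rfl
    rw [hpow]
    unfold XX
    split_ifs with h1 h2
    · simp only [Finset.notMem_empty, iff_false]
      rintro ⟨g1, g2, g3⟩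
      apply pow9_ne (x, y, z) hm h1
      obtain ⟨k, hk⟩ := hm9
      have f1 : x ^ 9 = 1 := by rw [hk, pow_mul, g1, one_pow]
      have f2 : y ^ 9 = 1 := by rw [hk, pow_mul, g2, one_pow]
      have f3 : z ^ 9 = 1 := by rw [hk, pow_mul, g3, one_pow]
      exact Prod.ext f1 (Prod.ext f2 f3)
    · push Not at h1
      rw [h1] at hall
      have e1 : y.e = x.e := by
        have := hm.2.2.2.2.1
        change y.e = x.e - sm x.b at this
        rw [this, h1, sub_zero]
      have e2 : z.e = x.e := by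
        have := hm.2.2.2.2.2
        change z.e = x.e - 2 * sm x.b at this
        rw [this, h1, mul_zero, sub_zero]
      obtain ⟨k, rfl⟩ := hm3
      simp only [hall, iff_true]
      refine ⟨?_, ?_, ?_⟩
      · rw [pow_mul, P.cube x h2, one_pow]
      · rw [pow_mul, P.cube y (by rwa [e1]), one_pow]
      · rw [pow_mul, P.cube z (by rwa [e2]), one_pow]
    · push Not at h1 h2
      rw [h1] at hall
      have e1 : y.e = 0 := by
        have := hm.2.2.2.2.1
        change y.e = x.e - sm x.b at this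
        rw [this, h1, sub_zero, h2]
      have e2 : z.e = 0 := by
        have := hm.2.2.2.2.2
        change z.e = x.e - 2 * sm x.b at this
        rw [this, h1, mul_zero, sub_zero, h2]
      rw [P.pow_eq_one_iff x h2, P.pow_eq_one_iff y e1, P.pow_eq_one_iff z e2]
      rw [Finset.mem_product, Finset.mem_product] at hall ⊢
      rw [Finset.mem_filter, Finset.mem_filter, Finset.mem_filter]
      exact ⟨fun h => ⟨⟨hall.1, h.1⟩, ⟨hall.2.1, h.2.1⟩, ⟨hall.2.2, h.2.2⟩⟩,
        fun h => ⟨h.1.2, h.2.1.2, h.2.2.2⟩⟩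

theorem card_H3 : Nat.card {h : H // h ^ 3 = 1} = 2 * 3 ^ 13 + 3 ^ 6 := by
  rw [count_pow 3 (by norm_num) (by norm_num)]
  have h1 : ∀ a : ZMod 3 × ZMod 3, (XX 3 a.1 a.2).card =
      if a.2 ≠ 0 then 0 else if a.1 ≠ 0 then 3 ^ 13 else 3 ^ 6 := by
    intro a
    unfold XX
    split_ifs
    · rfl
    · simp only [Finset.card_product, card_S0, card_S1]
      norm_num
    · simp only [Finset.card_product, card_S0_3, card_S1_3]
      norm_num
  rw [Finset.sum_congr rfl (fun a _ => h1 a)]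
  decide +kernel

theorem card_H9 : Nat.card {h : H // h ^ 9 = 1} = 2 * 3 ^ 13 + 3 ^ 12 := by
  rw [count_pow 9 (by norm_num) (by norm_num)]
  have h1 : ∀ a : ZMod 3 × ZMod 3, (XX 9 a.1 a.2).card =
      if a.2 ≠ 0 then 0 else if a.1 ≠ 0 then 3 ^ 13 else 3 ^ 12 := by
    intro a
    unfold XX
    split_ifs
    · rfl
    · simp only [Finset.card_product, card_S0, card_S1]
      norm_num
    · simp only [Finset.card_product, card_S0_9, card_S1_9]
      norm_num
  rw [Finset.sum_congr rfl (fun a _ => h1 a)]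
  decide +kernel

theorem pow27_H (h : H) : h ^ 27 = 1 := by
  obtain ⟨⟨x, y, z⟩, hm⟩ := h
  apply Subtype.ext
  change ((x, y, z) : P × P × P) ^ 27 = 1
  rw [Prod.pow_mk, Prod.pow_mk, pow27, pow27, pow27]
  rfl

/-- the sum of the element orders of a group with `x ^ 27 = 1` for all `x` -/
theorem psi_formula (G : Type) [Group G] [Fintype G] (h27 : ∀ x : G, x ^ 27 = 1) :
    psi G + 18 * Nat.card {x : G // x ^ 9 = 1} + 6 * Nat.card {x : G // x ^ 3 = 1} + 2 =
      27 * Nat.card G := by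
  classical
  have h1 : ∀ x : G, orderOf x + 18 * (if x ^ 9 = 1 then 1 else 0) +
      6 * (if x ^ 3 = 1 then 1 else 0) + 2 * (if x = 1 then 1 else 0) = 27 := by
    intro x
    have hd : orderOf x ∣ 3 ^ 3 := orderOf_dvd_of_pow_eq_one (h27 x)
    obtain ⟨k, hk, hk'⟩ := (Nat.dvd_prime_pow Nat.prime_three).1 hd
    have e9 : x ^ 9 = 1 ↔ 3 ^ k ∣ 9 := by rw [← hk', orderOf_dvd_iff_pow_eq_one]
    have e3 : x ^ 3 = 1 ↔ 3 ^ k ∣ 3 := by rw [← hk', orderOf_dvd_iff_pow_eq_one]
    have e1 : x = 1 ↔ 3 ^ k = 1 := by rw [← hk', orderOf_eq_one_iff]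
    simp only [e9, e3, e1, hk']
    interval_cases k <;> norm_num
  have h2 : ∑ x : G, (orderOf x + 18 * (if x ^ 9 = 1 then 1 else 0) +
      6 * (if x ^ 3 = 1 then 1 else 0) + 2 * (if x = 1 then 1 else 0)) = 27 * Nat.card G := by
    rw [Finset.sum_congr rfl (fun x _ => h1 x), Finset.sum_const, Finset.card_univ,
      Nat.card_eq_fintype_card, smul_eq_mul, mul_comm]
  rw [Finset.sum_add_distrib, Finset.sum_add_distrib, Finset.sum_add_distrib, ← Finset.mul_sum,
    ← Finset.mul_sum, ← Finset.mul_sum, Finset.sum_boole, Finset.sum_boole,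
    Finset.sum_ite_eq' Finset.univ (1 : G) (fun _ => 1)] at h2
  rw [Nat.card_eq_fintype_card (α := {x : G // x ^ 9 = 1}),
    Nat.card_eq_fintype_card (α := {x : G // x ^ 3 = 1}), Fintype.card_subtype,
    Fintype.card_subtype]
  simp only [Finset.mem_univ, if_true, mul_one, Nat.cast_id] at h2
  exact h2

theorem psi_formula' (G : Type) [Group G] [Fintype G] (h27 : ∀ x : G, x ^ 27 = 1) (a b c : ℕ)
    (ha : Nat.card {x : G // x ^ 9 = 1} = a) (hb : Nat.card {x : G // x ^ 3 = 1} = b)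
    (hc : Nat.card G = c) : psi G + 18 * a + 6 * b + 2 = 27 * c := by
  subst ha hb hc
  exact psi_formula G h27

/-- the group `C₃ × C₃` -/
abbrev C : Type := Multiplicative (ZMod 3 × ZMod 3)

/-- the second group of order `3 ^ 17` -/
abbrev HH : Type := H × C

/-- the abelian group `C₂₇ × C₉ ^ 7` -/
abbrev GG : Type := Multiplicative (ZMod 27 × (Fin 7 → ZMod 9))

instance : Finite H := inferInstance

noncomputable instance : Fintype H := Fintype.ofFinite H

theorem C_cube : ∀ c : C, c ^ 3 = 1 := by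
  decide

theorem card_C : Nat.card C = 9 := by
  rw [Nat.card_eq_fintype_card]
  rfl

theorem card_prod_pow (m : ℕ) (hm : 3 ∣ m) :
    Nat.card {x : HH // x ^ m = 1} = Nat.card {h : H // h ^ m = 1} * 9 := by
  rw [← card_C, ← Nat.card_prod]
  obtain ⟨k, rfl⟩ := hm
  apply Nat.card_congr
  exact
    { toFun := fun x => (⟨x.1.1, congrArg Prod.fst x.2⟩, x.1.2)
      invFun := fun y => ⟨(y.1.1, y.2), by
        rw [Prod.pow_mk, y.1.2, pow_mul y.2, C_cube, one_pow]
        rfl⟩
      left_inv := fun x => rfl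
      right_inv := fun y => rfl }

theorem card_HH : Nat.card HH = 3 ^ 17 := by
  rw [Nat.card_prod, card_H, card_C]
  norm_num

theorem pow27_HH (x : HH) : x ^ 27 = 1 := by
  obtain ⟨h, c⟩ := x
  rw [Prod.pow_mk, pow27_H, show 27 = 3 * 9 from rfl, pow_mul c, C_cube, one_pow]
  rfl

theorem card_GG : Nat.card GG = 3 ^ 17 := by
  have : Nat.card (ZMod 27 × (Fin 7 → ZMod 9)) = 3 ^ 17 := by
    rw [Nat.card_prod, Nat.card_fun, Nat.card_zmod, Nat.card_zmod, Nat.card_fin]
    norm_num
  exact this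

theorem card_GG_pow (m : ℕ) : Nat.card {x : GG // x ^ m = 1} =
    Nat.card {a : ZMod 27 // m • a = 0} * Nat.card {a : ZMod 9 // m • a = 0} ^ 7 := by
  have e1 : {x : GG // x ^ m = 1} ≃
      {a : ZMod 27 // m • a = 0} × (Fin 7 → {a : ZMod 9 // m • a = 0}) :=
    { toFun := fun x => (⟨x.1.1, congrArg Prod.fst x.2⟩,
        fun i => ⟨x.1.2 i, congrFun (congrArg Prod.snd x.2) i⟩)
      invFun := fun y => ⟨(y.1.1, fun i => (y.2 i).1), by
        apply Prod.ext
        · exact y.1.2
        · funext i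
          exact (y.2 i).2⟩
      left_inv := fun x => rfl
      right_inv := fun y => rfl }
  rw [Nat.card_congr e1, Nat.card_prod, Nat.card_fun, Nat.card_fin]

theorem card_GG3 : Nat.card {x : GG // x ^ 3 = 1} = 3 ^ 8 := by
  rw [card_GG_pow]
  have h1 : Nat.card {a : ZMod 27 // 3 • a = 0} = 3 := by
    rw [Nat.card_eq_fintype_card]
    decide +kernel
  have h2 : Nat.card {a : ZMod 9 // 3 • a = 0} = 3 := by
    rw [Nat.card_eq_fintype_card]
    decide +kernel
  rw [h1, h2]
  norm_num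

theorem card_GG9 : Nat.card {x : GG // x ^ 9 = 1} = 3 ^ 16 := by
  rw [card_GG_pow]
  have h1 : Nat.card {a : ZMod 27 // 9 • a = 0} = 9 := by
    rw [Nat.card_eq_fintype_card]
    decide +kernel
  have h2 : Nat.card {a : ZMod 9 // 9 • a = 0} = 9 := by
    rw [Nat.card_eq_fintype_card]
    decide +kernel
  rw [h1, h2]
  norm_num

theorem pow27_GG (x : GG) : x ^ 27 = 1 := by
  have h1 : ∀ a : ZMod 27, 27 • a = 0 := by decide +kernel
  have h2 : ∀ a : ZMod 9, 27 • a = 0 := by decide +kernel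
  have h3 : ∀ y : ZMod 27 × (Fin 7 → ZMod 9), 27 • y = 0 := by
    rintro ⟨a, f⟩
    apply Prod.ext
    · exact h1 a
    · funext i
      exact h2 (f i)
  exact h3 x

theorem psi_eq : psi GG = psi HH := by
  have h1 := psi_formula' GG pow27_GG _ _ _ card_GG9 card_GG3 card_GG
  have h2 := psi_formula' HH pow27_HH _ _ _
    ((card_prod_pow 9 (by norm_num)).trans (congrArg (· * 9) card_H9))
    ((card_prod_pow 3 (by norm_num)).trans (congrArg (· * 9) card_H3)) card_HH
  have e1 : 18 * 3 ^ 16 + 6 * 3 ^ 8 =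
      18 * ((2 * 3 ^ 13 + 3 ^ 12) * 9) + 6 * ((2 * 3 ^ 13 + 3 ^ 6) * 9) := by norm_num
  generalize psi GG = a at *
  generalize psi HH = b at *
  linarith

theorem isLCM_GG : IsLCM GG := by
  intro x y n
  exact (Commute.all _ _).orderOf_mul_dvd_lcm

theorem card_ord_three (G : Type) [Group G] [Finite G] :
    Nat.card {x : G // x ^ 3 = 1} = Nat.card {x : G // orderOf x = 3} + 1 := by
  classical
  have := Fintype.ofFinite G
  rw [Nat.card_eq_fintype_card, Nat.card_eq_fintype_card, Fintype.card_subtype,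
    Fintype.card_subtype]
  have h1 : (univ.filter (fun x : G => x ^ 3 = 1)) =
      insert 1 (univ.filter (fun x : G => orderOf x = 3)) := by
    ext x
    rw [Finset.mem_insert, Finset.mem_filter, Finset.mem_filter]
    constructor
    · rintro ⟨_, h⟩
      rcases (Nat.dvd_prime Nat.prime_three).1 (orderOf_dvd_of_pow_eq_one h) with h | h
      · exact Or.inl (orderOf_eq_one_iff.1 h)
      · exact Or.inr ⟨mem_univ _, h⟩
    · rintro (rfl | ⟨_, h⟩)
      · exact ⟨mem_univ _, one_pow 3⟩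
      · refine ⟨mem_univ _, ?_⟩
        rw [← h]
        exact pow_orderOf_eq_one x
  rw [h1, Finset.card_insert_of_notMem]
  rw [Finset.mem_filter, orderOf_one]
  rintro ⟨_, h⟩
  norm_num at h

theorem not_same : ¬ SameOrderSeq GG HH := by
  intro h
  have h1 := card_ord_three GG
  have h2 := card_ord_three HH
  rw [card_GG3, h 3] at h1
  rw [card_prod_pow 3 (by norm_num), card_H3] at h2
  have h3 := h1.trans h2.symm
  norm_num at h3

theorem exponent_dvd : Monoid.exponent HH ∣ Monoid.exponent GG := by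
  have h1 : Monoid.exponent HH ∣ 27 := Monoid.exponent_dvd_of_forall_pow_eq_one pow27_HH
  refine h1.trans ?_
  have h2 := Monoid.order_dvd_exponent (Multiplicative.ofAdd ((1 : ZMod 27), (0 : Fin 7 → ZMod 9)))
  refine dvd_trans ?_ h2
  set o := orderOf (Multiplicative.ofAdd ((1 : ZMod 27), (0 : Fin 7 → ZMod 9))) with ho
  have h3 := pow_orderOf_eq_one (Multiplicative.ofAdd ((1 : ZMod 27), (0 : Fin 7 → ZMod 9)))
  rw [← ho] at h3
  have h4 : o • ((1 : ZMod 27), (0 : Fin 7 → ZMod 9)) = 0 := h3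
  have h5 : o • (1 : ZMod 27) = 0 := congrArg Prod.fst h4
  rw [nsmul_eq_mul, mul_one] at h5
  exact (ZMod.natCast_eq_zero_iff o 27).1 h5

/-- There are groups `G` and `H` of the same odd order (equal to `3 ^ 17`) such that `G` is an LCM
group, the exponent of `H` divides the exponent of `G`, the sums of the element orders are equal,
and the order sequences are different. -/
theorem result : ∃ (G H : Type) (_ : Group G) (_ : Group H) (_ : Fintype G) (_ : Fintype H),
    Odd (Fintype.card G) ∧ Fintype.card G = Fintype.card H ∧ IsLCM G ∧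
      Monoid.exponent H ∣ Monoid.exponent G ∧ psi G = psi H ∧ ¬ SameOrderSeq G H := by
  refine ⟨GG, HH, inferInstance, inferInstance, inferInstance, inferInstance, ?_, ?_, isLCM_GG,
    exponent_dvd, psi_eq, not_same⟩
  · rw [← Nat.card_eq_fintype_card, card_GG]
    exact Odd.pow (by decide)
  · rw [← Nat.card_eq_fintype_card, ← Nat.card_eq_fintype_card, card_GG, card_HH]

end Pool.Agent.Results.MP_c3eb23_al.Order3pow17
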